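import Pool.Agent.TH164.GHC.Stab
import Pool.Agent.U228.KP.Nt
import Pool.Agent.TH504.CB.DerK

/-!
# Sub-Hodge structures are stable under the skew operators of `T`: periods and complex multiplication
-/

set_option autoImplicit false
set_option linter.unusedSectionVars false

open Finset Module Matrix

namespace Pool.Agent.U228.GP

open Pool.Agent.W544.PG Pool.Agent.TH164.HC Pool.Agent.TH164.GHC Pool.Agent.U228.KP

noncomputable section

section cw

variable {κ : Type} [Fintype κ] [DecidableEq κ] {v m : ℕ}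

/-- coordinatewise application -/
def cw (f : ℂ → ℂ) (y : (Fin m → κ) → Fin v → ℂ) : (Fin m → κ) → Fin v → ℂ :=
  fun J b => f (y J b)

theorem cw_aut (σ : ℂ ≃+* ℂ) {W : Submodule ℚ ((Fin m → κ) → Fin v → ℚ)}
    {y : (Fin m → κ) → Fin v → ℂ} (hy : y ∈ cs cE W) : cw σ y ∈ cs cE W := by
  unfold cs at hy
  induction hy using Submodule.span_induction with
  | mem x hx =>
    obtain ⟨t, ht, rfl⟩ := hx
    have h1 : cw σ (cE t) = cE t := by
      funext J b
      simp [cw, cE]
    rw [h1]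
    exact mem_cs ht
  | zero =>
    have h1 : cw σ (0 : (Fin m → κ) → Fin v → ℂ) = 0 := by
      funext J b
      simp [cw]
    rw [h1]
    exact Submodule.zero_mem _
  | add x y _ _ hx hy =>
    have h1 : cw σ (x + y) = cw σ x + cw σ y := by
      funext J b
      simp [cw]
    rw [h1]
    exact Submodule.add_mem _ hx hy
  | smul a x _ hx =>
    have h1 : cw σ (a • x) = σ a • cw σ x := by
      funext J b
      simp [cw]
    rw [h1]
    exact Submodule.smul_mem _ _ hx

theorem cw_der (δ : Derivation ℚ ℂ ℂ) {W : Submodule ℚ ((Fin m → κ) → Fin v → ℚ)}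
    {y : (Fin m → κ) → Fin v → ℂ} (hy : y ∈ cs cE W) : cw δ y ∈ cs cE W := by
  have hq : ∀ q : ℚ, δ (q : ℂ) = 0 := by
    intro q
    have h1 := δ.map_algebraMap q
    simpa using h1
  unfold cs at hy
  induction hy using Submodule.span_induction with
  | mem x hx =>
    obtain ⟨t, ht, rfl⟩ := hx
    have h1 : cw δ (cE t) = 0 := by
      funext J b
      exact hq _
    rw [h1]
    exact Submodule.zero_mem _
  | zero =>
    have h1 : cw δ (0 : (Fin m → κ) → Fin v → ℂ) = 0 := by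
      funext J b
      exact map_zero δ
    rw [h1]
    exact Submodule.zero_mem _
  | add x y _ _ hx hy =>
    have h1 : cw δ (x + y) = cw δ x + cw δ y := by
      funext J b
      exact map_add δ _ _
    rw [h1]
    exact Submodule.add_mem _ hx hy
  | smul a x hx0 hx =>
    have h1 : cw δ (a • x) = a • cw δ x + δ a • x := by
      funext J b
      change δ (a * x J b) = a * δ (x J b) + δ a * x J b
      rw [Derivation.leibniz, smul_eq_mul, smul_eq_mul]
      ring
    rw [h1]
    exact Submodule.add_mem _ (Submodule.smul_mem _ _ hx) (Submodule.smul_mem _ _ hx0)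

/-- conjugation of the Hodge operator -/
theorem Dop_aut (σ : ℂ ≃+* ℂ) (z : Matrix (Fin v) (Fin v) ℂ) (X : Matrix κ κ ℂ)
    (t : (Fin m → κ) → Fin v → ℚ) :
    Dop (z.map σ) (X.map σ) univ (cE t) = cw σ (Dop z X univ (cE t)) := by
  funext J b
  change ((z.map σ) *ᵥ cE t J) b + aS univ (X.map σ) (cE t) J b =
    σ ((z *ᵥ cE t J) b + aS univ X (cE t) J b)
  rw [aS_val, aS_val, map_add, map_sum]
  congr 1
  · simp only [Matrix.mulVec, dotProduct, Matrix.map_apply, map_sum, map_mul, cE, map_ratCast]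
  · refine Finset.sum_congr rfl fun j _ => ?_
    rw [map_sum]
    refine Finset.sum_congr rfl fun x _ => ?_
    simp only [Matrix.map_apply, map_mul, cE, map_ratCast]

/-- derivative of the Hodge operator -/
theorem Dop_der (δ : Derivation ℚ ℂ ℂ) (z : Matrix (Fin v) (Fin v) ℂ) (X : Matrix κ κ ℂ)
    (t : (Fin m → κ) → Fin v → ℚ) :
    Dop (z.map δ) (X.map δ) univ (cE t) = cw δ (Dop z X univ (cE t)) := by
  have hq : ∀ q : ℚ, δ (q : ℂ) = 0 := by
    intro q
    have h1 := δ.map_algebraMap q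
    simpa using h1
  have hm : ∀ (a : ℂ) (q : ℚ), δ (a * (q : ℂ)) = δ a * (q : ℂ) := by
    intro a q
    rw [Derivation.leibniz, hq, smul_zero, zero_add, smul_eq_mul, mul_comm]
  funext J b
  change ((z.map δ) *ᵥ cE t J) b + aS univ (X.map δ) (cE t) J b =
    δ ((z *ᵥ cE t J) b + aS univ X (cE t) J b)
  rw [aS_val, aS_val, map_add, map_sum]
  congr 1
  · simp only [Matrix.mulVec, dotProduct, Matrix.map_apply, map_sum, cE, hm]
  · refine Finset.sum_congr rfl fun j _ => ?_
    rw [map_sum]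
    refine Finset.sum_congr rfl fun x _ => ?_
    simp only [Matrix.map_apply, cE, hm]

/-- the conjugates of the Hodge operator preserve the space -/
theorem conj_stab {W : Submodule ℚ ((Fin m → κ) → Fin v → ℚ)} {z : Matrix (Fin v) (Fin v) ℂ}
    {X : Matrix κ κ ℂ} (hW : ∀ y ∈ cs cE W, Dop z X univ y ∈ cs cE W) (σ : ℂ ≃+* ℂ) :
    ∀ y ∈ cs cE W, Dop (z.map σ) (X.map σ) univ y ∈ cs cE W := by
  have h1 : cs cE W ≤ (cs cE W).comap (Dop (z.map σ) (X.map σ) univ) := by
    rw [cs_le]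
    intro t ht
    rw [Submodule.mem_comap, Dop_aut]
    exact cw_aut σ (hW _ (mem_cs ht))
  exact h1

/-- the derivatives of the Hodge operator preserve the space -/
theorem der_stab {W : Submodule ℚ ((Fin m → κ) → Fin v → ℚ)} {z : Matrix (Fin v) (Fin v) ℂ}
    {X : Matrix κ κ ℂ} (hW : ∀ y ∈ cs cE W, Dop z X univ y ∈ cs cE W) (δ : Derivation ℚ ℂ ℂ)
    (hz : z.map δ = 0) : ∀ y ∈ cs cE W, aS univ (X.map δ) y ∈ cs cE W := by
  have h1 : cs cE W ≤ (cs cE W).comap (aS univ (X.map δ)) := by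
    rw [cs_le]
    intro t ht
    rw [Submodule.mem_comap]
    have h2 := cw_der δ (hW _ (mem_cs ht))
    rw [← Dop_der, hz] at h2
    have h3 : Dop (0 : Matrix (Fin v) (Fin v) ℂ) (X.map δ) univ (cE t) =
        aS univ (X.map δ) (cE t) := by
      rw [Dop_apply]
      have h4 : zz (0 : Matrix (Fin v) (Fin v) ℂ) (cE t) = 0 := by
        funext J
        rw [zz_apply, Matrix.zero_mulVec]
        rfl
      rw [h4, zero_add]
    rwa [h3] at h2
  exact h1

end cw

variable {n r s v m : ℕ} {T : HS n} {c : Fin n → Fin r} {k : Fin r → ℕ} {V : Coh v}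

/-- the skew block diagonal operators which preserve the space -/
def NW (Q : Matrix (Fin n) (Fin n) ℚ) (c : Fin n → Fin r)
    (W : Submodule ℚ ((Fin m → Fin s ⊕ Fin n) → Fin v → ℚ)) :
    Submodule ℂ (Matrix (Fin n) (Fin n) ℂ) where
  carrier := {Z | (Zᵀ * mC Q + mC Q * Z = 0 ∧ BD c Z) ∧
    ∀ y ∈ cs cE W, aS univ (ex s Z) y ∈ cs cE W}
  zero_mem' := by
    refine ⟨⟨by simp, fun a b _ => rfl⟩, fun y _ => ?_⟩
    have h1 : ex s (0 : Matrix (Fin n) (Fin n) ℂ) = 0 := by
      unfold ex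
      simp
    rw [h1, aS_zero]
    exact Submodule.zero_mem _
  add_mem' := by
    rintro A B ⟨⟨a1, a2⟩, a3⟩ ⟨⟨b1, b2⟩, b3⟩
    refine ⟨⟨?_, fun a b hab => ?_⟩, fun y hy => ?_⟩
    · rw [Matrix.transpose_add, Matrix.add_mul, Matrix.mul_add, add_add_add_comm, a1, b1, add_zero]
    · rw [Matrix.add_apply, a2 a b hab, b2 a b hab, add_zero]
    · rw [ex_add, aS_add]
      exact Submodule.add_mem _ (a3 y hy) (b3 y hy)
  smul_mem' := by
    rintro z A ⟨⟨a1, a2⟩, a3⟩
    refine ⟨⟨?_, fun a b hab => ?_⟩, fun y hy => ?_⟩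
    · rw [Matrix.transpose_smul, Matrix.smul_mul, Matrix.mul_smul, ← smul_add, a1, smul_zero]
    · rw [Matrix.smul_apply, a2 a b hab, smul_zero]
    · rw [ex_smul, aS_smul]
      exact Submodule.smul_mem _ _ (a3 y hy)

theorem mem_NW {Q : Matrix (Fin n) (Fin n) ℚ}
    {W : Submodule ℚ ((Fin m → Fin s ⊕ Fin n) → Fin v → ℚ)} {Z : Matrix (Fin n) (Fin n) ℂ} :
    Z ∈ NW Q c W ↔ (Zᵀ * mC Q + mC Q * Z = 0 ∧ BD c Z) ∧
      ∀ y ∈ cs cE W, aS univ (ex s Z) y ∈ cs cE W := Iff.rfl

theorem zz_aS (z : Matrix (Fin v) (Fin v) ℂ) (M : Matrix (Fin s ⊕ Fin n) (Fin s ⊕ Fin n) ℂ)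
    (y : (Fin m → Fin s ⊕ Fin n) → Fin v → ℂ) :
    zz z (aS univ M y) = aS univ M (zz z y) := post_aS _ _ _ _

/-- The space is stable under brackets with operators that preserve the space together with an
operator on the values. -/
theorem NW_norm {Q : Matrix (Fin n) (Fin n) ℚ}
    {W : Submodule ℚ ((Fin m → Fin s ⊕ Fin n) → Fin v → ℚ)} {x : Matrix (Fin n) (Fin n) ℂ}
    {z : Matrix (Fin v) (Fin v) ℂ} (hx : xᵀ * mC Q + mC Q * x = 0) (hxc : BD c x)
    (h : ∀ y ∈ cs cE W, Dop z (ex s x) univ y ∈ cs cE W) {Z : Matrix (Fin n) (Fin n) ℂ}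
    (hZ : Z ∈ NW Q c W) : x * Z - Z * x ∈ NW Q c W := by
  obtain ⟨⟨h1, h2⟩, h3⟩ := hZ
  refine ⟨⟨skew_br hx h1, BD_br hxc h2⟩, fun y hy => ?_⟩
  have h4 : aS univ (ex s (x * Z - Z * x)) y =
      Dop z (ex s x) univ (aS univ (ex s Z) y) - aS univ (ex s Z) (Dop z (ex s x) univ y) := by
    rw [Dop_apply, Dop_apply, map_add, zz_aS, ex_sub, ex_mul, ex_mul, ← aS_lie,
      LinearMap.sub_apply, Module.End.mul_apply, Module.End.mul_apply]
    abel
  rw [h4]
  exact Submodule.sub_mem _ (h _ (h3 _ hy)) (h3 _ (h _ hy))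

/-- **Stability, from periods.** -/
theorem stab_over (hT : Full T c k) (K : Subfield ℂ) (hV : ∀ b b', V.z b b' ∈ K)
    (hx : ∀ i, ∃ a b, c a = i ∧ c b = i ∧ Transcendental K (T.x a b))
    (W : Submodule ℚ ((Fin m → Fin s ⊕ Fin n) → Fin v → ℚ))
    (hW : ∀ y ∈ cs cE W, Dop V.z (ex s T.x) univ y ∈ cs cE W)
    (Z : Matrix (Fin n) (Fin n) ℂ) (hZ : Zᵀ * mC T.Q + mC T.Q * Z = 0) (hZc : BD c Z) :
    ∀ y ∈ cs cE W, aS univ (ex s Z) y ∈ cs cE W := by
  refine (full_mem hT (NW T.Q c W) (fun y hy => hy.1) (fun σ y hy => ?_) (fun i => ?_) Z hZ hZc).2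
  · refine NW_norm (z := V.z.map σ) (skew_map T.skew σ) (hT.bx.map (map_zero σ)) ?_ hy
    rw [ex_map]
    exact conj_stab hW σ
  · obtain ⟨a, b, ha, hb, htr⟩ := hx i
    have hai : AlgebraicIndependent K fun _ : Unit => T.x a b :=
      algebraicIndependent_unique_type_iff.2 htr
    obtain ⟨δ, hδK, hδ⟩ := Pool.Agent.TH504.CB.exists_derivationK hai fun _ => (1 : ℂ)
    have hz : V.z.map δ = 0 := by
      ext b b'
      exact hδK ⟨_, hV b b'⟩
    refine ⟨T.x.map δ, ⟨⟨?_, ?_⟩, ?_⟩, a, b, ha, hb, ?_⟩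
    · -- skew
      have hq : ∀ q : ℚ, δ (q : ℂ) = 0 := by
        intro q
        have h1 := δ.map_algebraMap q
        simpa using h1
      ext i j
      have h1 := congrArg δ (congrFun (congrFun T.skew i) j)
      rw [Matrix.add_apply, Matrix.mul_apply, Matrix.mul_apply, map_add, map_sum, map_sum,
        Matrix.zero_apply, map_zero] at h1
      rw [Matrix.add_apply, Matrix.mul_apply, Matrix.mul_apply, Matrix.zero_apply, ← h1]
      congr 1
      · refine Finset.sum_congr rfl fun l _ => ?_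
        rw [Derivation.leibniz]
        simp only [mC, Matrix.map_apply, Matrix.transpose_apply, hq, smul_eq_mul]
        ring
      · refine Finset.sum_congr rfl fun l _ => ?_
        rw [Derivation.leibniz]
        simp only [mC, Matrix.map_apply, hq, smul_eq_mul]
        ring
    · intro a b hab
      rw [Matrix.map_apply, hT.bx a b hab, map_zero]
    · have h1 : ex s (T.x.map δ) = (ex s T.x).map δ := by
        unfold ex
        rw [fromBlocks_map]
        congr 1 <;> ext i j <;> simp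
      rw [h1]
      exact der_stab hW δ hz
    · rw [Matrix.map_apply, hδ ()]
      exact one_ne_zero

/-- The Lie algebra `so(T_i)` is not commutative. -/
theorem exists_br (hT : Full T c k) (i : Fin r) : ∃ Z Z' : Matrix (Fin n) (Fin n) ℂ,
    (Zᵀ * mC T.Q + mC T.Q * Z = 0 ∧ BD c Z) ∧ (Z'ᵀ * mC T.Q + mC T.Q * Z' = 0 ∧ BD c Z') ∧
      ∃ a b, c a = i ∧ c b = i ∧ (Z * Z' - Z' * Z) a b ≠ 0 := by
  by_contra hcon
  push Not at hcon
  obtain ⟨e, T', b⟩ := exists_blk' hT i
  have hsub : ∀ A B : Matrix (Fin (k i)) (Fin (k i)) ℂ,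
      (sel e * A * (sel e)ᵀ * (sel e * B * (sel e)ᵀ)).submatrix e e = A * B := by
    intro A B
    have h1 : sel e * A * (sel e)ᵀ * (sel e * B * (sel e)ᵀ) = sel e * (A * B) * (sel e)ᵀ := by
      calc sel e * A * (sel e)ᵀ * (sel e * B * (sel e)ᵀ) =
          sel e * A * ((sel e)ᵀ * sel e) * B * (sel e)ᵀ := by
            simp only [Matrix.mul_assoc]
        _ = _ := by
            rw [sel_T_sel _ b.en.inj, Matrix.mul_one]
            simp only [Matrix.mul_assoc]
    rw [h1]
    have h2 : ∀ M : Matrix (Fin (k i)) (Fin (k i)) ℂ,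
        (sel e)ᵀ * (sel e * M * (sel e)ᵀ) * sel e = M := by
      intro M
      calc (sel e)ᵀ * (sel e * M * (sel e)ᵀ) * sel e =
          ((sel e)ᵀ * sel e) * M * ((sel e)ᵀ * sel e) := by simp only [Matrix.mul_assoc]
        _ = M := by rw [sel_T_sel _ b.en.inj, Matrix.one_mul, Matrix.mul_one]
    have h3 : ∀ Y : Matrix (Fin n) (Fin n) ℂ, (sel e)ᵀ * Y * sel e = Y.submatrix e e := by
      intro Y
      ext a' b'
      simp [sel, Matrix.mul_apply]
    rw [← h3, h2]
  have hcomm : ∀ A B : Matrix (Fin (k i)) (Fin (k i)) ℂ, Aᵀ * mC T'.Q + mC T'.Q * A = 0 →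
      Bᵀ * mC T'.Q + mC T'.Q * B = 0 → A * B - B * A = 0 := by
    intro A B hA hB
    ext a' b'
    have h1 := hcon (sel e * A * (sel e)ᵀ) (sel e * B * (sel e)ᵀ)
      ⟨sel_skew' hT.bQ b hA, sel_BD b.en A⟩ ⟨sel_skew' hT.bQ b hB, sel_BD b.en B⟩ (e a') (e b')
      (b.en.col a') (b.en.col b')
    rw [← hsub A B, ← hsub B A, Matrix.sub_apply, Matrix.submatrix_apply, Matrix.submatrix_apply,
      ← Matrix.sub_apply, h1, Matrix.zero_apply]
  by_cases h0 : ∃ y0 : Matrix (Fin (k i)) (Fin (k i)) ℂ, y0ᵀ * mC T'.Q + mC T'.Q * y0 = 0 ∧ y0 ≠ 0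
  · obtain ⟨y0, hy0, hne⟩ := h0
    refine not_line T' (hT.three i) y0 fun Z' hZ' => ?_
    refine simB T' (hT.three i) (hT.four i) (Submodule.span ℂ {y0}) ?_ ?_
      ⟨y0, Submodule.mem_span_singleton_self y0, hne⟩ Z' hZ'
    · intro w hw
      obtain ⟨z, rfl⟩ := Submodule.mem_span_singleton.1 hw
      rw [Matrix.transpose_smul, Matrix.smul_mul, Matrix.mul_smul, ← smul_add, hy0, smul_zero]
    · intro W hW w hw
      obtain ⟨z, rfl⟩ := Submodule.mem_span_singleton.1 hw
      rw [Matrix.mul_smul, Matrix.smul_mul, ← smul_sub, hcomm W y0 hW hy0, smul_zero]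
      exact Submodule.zero_mem _
  · push Not at h0
    refine not_line T' (hT.three i) 0 fun Z' hZ' => ?_
    rw [h0 Z' hZ']
    exact Submodule.zero_mem _

/-- **Stability, for complex multiplication.** -/
theorem stab_cm (hT : Full T c k)
    (hV : ∀ σ τ : ℂ ≃+* ℂ, V.z.map σ * V.z.map τ = V.z.map τ * V.z.map σ)
    (W : Submodule ℚ ((Fin m → Fin s ⊕ Fin n) → Fin v → ℚ))
    (hW : ∀ y ∈ cs cE W, Dop V.z (ex s T.x) univ y ∈ cs cE W)
    (Z : Matrix (Fin n) (Fin n) ℂ) (hZ : Zᵀ * mC T.Q + mC T.Q * Z = 0) (hZc : BD c Z) :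
    ∀ y ∈ cs cE W, aS univ (ex s Z) y ∈ cs cE W := by
  -- the torus
  let 𝔱 : Submodule ℂ (Matrix (Fin v) (Fin v) ℂ) :=
    Submodule.span ℂ {B | ∃ σ : ℂ ≃+* ℂ, B = V.z.map σ}
  have hcomm : ∀ B ∈ 𝔱, ∀ B' ∈ 𝔱, B * B' = B' * B := by
    intro B hB B' hB'
    induction hB using Submodule.span_induction with
    | mem B hB =>
      obtain ⟨σ, rfl⟩ := hB
      induction hB' using Submodule.span_induction with
      | mem B' hB' =>
        obtain ⟨τ, rfl⟩ := hB'
        exact hV σ τ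
      | zero => rw [Matrix.mul_zero, Matrix.zero_mul]
      | add x y _ _ hx hy => rw [Matrix.mul_add, Matrix.add_mul, hx, hy]
      | smul a x _ hx => rw [Matrix.mul_smul, Matrix.smul_mul, hx]
    | zero => rw [Matrix.mul_zero, Matrix.zero_mul]
    | add x y _ _ hx hy => rw [Matrix.mul_add, Matrix.add_mul, hx, hy]
    | smul a x _ hx => rw [Matrix.mul_smul, Matrix.smul_mul, hx]
  let 𝔥 : Submodule ℂ (Matrix (Fin n) (Fin n) ℂ) :=
    { carrier := {A | ∃ B ∈ 𝔱, ∀ y ∈ cs cE W, Dop B (ex s A) univ y ∈ cs cE W}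
      zero_mem' := by
        refine ⟨0, Submodule.zero_mem _, fun y _ => ?_⟩
        have h1 : ex s (0 : Matrix (Fin n) (Fin n) ℂ) = 0 := by
          unfold ex
          simp
        have h4 : zz (0 : Matrix (Fin v) (Fin v) ℂ) y = 0 := by
          funext J
          rw [zz_apply, Matrix.zero_mulVec]
          rfl
        rw [Dop_apply, h1, aS_zero, h4, zero_add]
        exact Submodule.zero_mem _
      add_mem' := by
        rintro A A' ⟨B, hB, h⟩ ⟨B', hB', h'⟩
        refine ⟨B + B', Submodule.add_mem _ hB hB', fun y hy => ?_⟩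
        have h1 : Dop (B + B') (ex s (A + A')) univ y =
            Dop B (ex s A) univ y + Dop B' (ex s A') univ y := by
          rw [Dop_apply, Dop_apply, Dop_apply, ex_add, aS_add]
          have h2 : zz (B + B') y = zz B y + zz B' y := by
            funext J
            rw [Pi.add_apply, zz_apply, zz_apply, zz_apply, Matrix.add_mulVec]
          rw [h2, LinearMap.add_apply]
          abel
        rw [h1]
        exact Submodule.add_mem _ (h y hy) (h' y hy)
      smul_mem' := by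
        rintro a A ⟨B, hB, h⟩
        refine ⟨a • B, Submodule.smul_mem _ _ hB, fun y hy => ?_⟩
        have h1 : Dop (a • B) (ex s (a • A)) univ y = a • Dop B (ex s A) univ y := by
          rw [Dop_apply, Dop_apply, ex_smul, aS_smul]
          have h2 : zz (a • B) y = a • zz B y := by
            funext J
            rw [Pi.smul_apply, zz_apply, zz_apply, Matrix.smul_mulVec]
          rw [h2, LinearMap.smul_apply, smul_add]
        rw [h1]
        exact Submodule.smul_mem _ _ (h y hy) }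
  have hmem : ∀ Z : Matrix (Fin n) (Fin n) ℂ, Zᵀ * mC T.Q + mC T.Q * Z = 0 → BD c Z → Z ∈ 𝔥 := by
    refine hT.full 𝔥 ?_ ?_
    · rintro A ⟨B, hB, h⟩ A' ⟨B', hB', h'⟩
      refine ⟨0, Submodule.zero_mem _, fun y hy => ?_⟩
      have h1 : Dop (0 : Matrix (Fin v) (Fin v) ℂ) (ex s (A * A' - A' * A)) univ y =
          Dop B (ex s A) univ (Dop B' (ex s A') univ y) -
            Dop B' (ex s A') univ (Dop B (ex s A) univ y) := by
        have h4 : zz (0 : Matrix (Fin v) (Fin v) ℂ) y = 0 := by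
          funext J
          rw [zz_apply, Matrix.zero_mulVec]
          rfl
        have h5 : zz B (zz B' y) = zz B' (zz B y) := by
          funext J
          rw [zz_apply, zz_apply, zz_apply, zz_apply, Matrix.mulVec_mulVec, Matrix.mulVec_mulVec,
            hcomm B hB B' hB']
        rw [Dop_apply, h4, zero_add, ex_sub, ex_mul, ex_mul, ← aS_lie, LinearMap.sub_apply,
          Module.End.mul_apply, Module.End.mul_apply]
        simp only [Dop_apply, map_add, zz_aS, h5]
        abel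
      rw [h1]
      exact Submodule.sub_mem _ (h _ (h' _ hy)) (h' _ (h _ hy))
    · intro σ
      refine ⟨V.z.map σ, Submodule.subset_span ⟨σ, rfl⟩, ?_⟩
      rw [ex_map]
      exact conj_stab hW σ
  refine (full_mem hT (NW T.Q c W) (fun y hy => hy.1) (fun σ y hy => ?_) (fun i => ?_) Z hZ hZc).2
  · refine NW_norm (z := V.z.map σ) (skew_map T.skew σ) (hT.bx.map (map_zero σ)) ?_ hy
    rw [ex_map]
    exact conj_stab hW σ
  · obtain ⟨A, A', ⟨a1, a2⟩, ⟨b1, b2⟩, a, b, ha, hb, hne⟩ := exists_br hT i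
    refine ⟨A * A' - A' * A, ⟨⟨skew_br a1 b1, BD_br a2 b2⟩, fun y hy => ?_⟩, a, b, ha, hb, hne⟩
    obtain ⟨B, hB, h⟩ := hmem A a1 a2
    obtain ⟨B', hB', h'⟩ := hmem A' b1 b2
    have h5 : zz B (zz B' y) = zz B' (zz B y) := by
      funext J
      rw [zz_apply, zz_apply, zz_apply, zz_apply, Matrix.mulVec_mulVec, Matrix.mulVec_mulVec,
        hcomm B hB B' hB']
    have h1 : aS univ (ex s (A * A' - A' * A)) y =
        Dop B (ex s A) univ (Dop B' (ex s A') univ y) -
          Dop B' (ex s A') univ (Dop B (ex s A) univ y) := by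
      rw [ex_sub, ex_mul, ex_mul, ← aS_lie, LinearMap.sub_apply,
        Module.End.mul_apply, Module.End.mul_apply]
      simp only [Dop_apply, map_add, zz_aS, h5]
      abel
    rw [h1]
    exact Submodule.sub_mem _ (h _ (h' _ hy)) (h' _ (h _ hy))

end

end Pool.Agent.U228.GP
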