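import Pool.Agent.TH164.GHC.Final2
import Pool.Agent.U228.GP.Stab

/-!
# The generalized Hodge conjecture for products of varieties of level two with a variety, from the
# stability of sub-Hodge structures under the skew operators of `T`

The second halves of the proofs are those of `Pool.Agent.TH164.GHC.Final`; the first step there (the
stability of sub-Hodge structures under the Lie algebras `so(T_i)`, from Hodge numbers) is replaced by a
hypothesis, which is verified in `Pool.Agent.U228.GP.Stab` from periods or from commutativity.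
-/

set_option autoImplicit false
set_option linter.unusedSectionVars false

open Finset Module Matrix

namespace Pool.Agent.U228.GP

open Pool.Agent.W544.PG Pool.Agent.TH164.HC Pool.Agent.TH164.GHC

noncomputable section

variable {n r g N s v m : ℕ} {T : HS n} {c : Fin n → Fin r} {k p q : Fin r → ℕ} {V : Coh v}
  {Nz : ℕ → Submodule ℚ (Fin v → ℚ)} {d : Fin s → Fin r} {ν : Fin s → ℕ}
  {a : Fin m → Fin r} {f : Fin r → ℕ}

/-- Sub-Hodge structures of the cohomology of products of the `Y_i` and `V` are stable under the skew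
operators of `T`. -/
def Stable {n r v : ℕ} (T : HS n) (c : Fin n → Fin r) (V : Coh v) : Prop :=
  ∀ (s m : ℕ) (W : Submodule ℚ ((Fin m → Fin s ⊕ Fin n) → Fin v → ℚ)),
    (∀ y ∈ cs cE W, Dop V.z (ex s T.x) univ y ∈ cs cE W) →
    ∀ Z : Matrix (Fin n) (Fin n) ℂ, Zᵀ * mC T.Q + mC T.Q * Z = 0 → BD c Z →
      ∀ y ∈ cs cE W, aS univ (ex s Z) y ∈ cs cE W

theorem good_type (hS : Stable T c V) {i : ℕ} {L : ℤ}
    {W : Submodule ℚ ((Fin m → Fin s ⊕ Fin n) → Fin v → ℚ)}
    (hWa : ∀ t ∈ W, ∀ J b, t J b ≠ 0 → ∀ x, Sum.elim d c (J x) = a x)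
    (hWd : ∀ t ∈ W, ∀ J b, t J b ≠ 0 →
      ∑ x, Sum.elim (fun e => 2 * ν e) (fun e => 2 * f (c e) + 2) (J x) + V.dg b = i)
    (hWs : SubHS T V L W) (A : Fin m → Option (Fin s)) :
    Good (AQ s T) (ex s T.x) V.z (cl s c) a (DD V a f A ν i) (SR A) L (W.map (Th (F := ℚ) A)) := by
  have hcs : cs cE (W.map (Th (F := ℚ) A)) = (cs cE W).map (Th (F := ℂ) A) :=
    cs_map _ _ fun t _ => cE_Th A t
  have hlev : Lv (Dop V.z (ex s T.x) univ) (fun p => |p| ≤ L) (cs cE W) := by
    unfold Lv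
    rw [cs_le]
    intro t ht
    have h1 := hWs t ht
    simp only [hodgeOp_eq] at h1
    exact h1
  have hstab : ∀ Z : Matrix (Fin n) (Fin n) ℂ, Zᵀ * mC T.Q + mC T.Q * Z = 0 → BD c Z →
      ∀ y ∈ cs cE W, aS univ (ex s Z) y ∈ cs cE W :=
    hS s m W hlev.stable
  refine ⟨?_, ?_, ?_, ?_, ?_⟩
  · rintro _ ⟨t, _, rfl⟩
    exact Th_dep A t
  · rintro _ ⟨t, ht, rfl⟩ J hJ x hx
    rw [Th_apply] at hJ
    have h1 : ∀ x ∈ SR A, (J x).isRight := by
      by_contra h
      exact hJ (if_neg h)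
    rw [if_pos h1] at hJ
    obtain ⟨b, hb⟩ := Function.ne_iff.1 hJ
    have h2 := hWa t ht _ b hb x
    have hA : A x = none := (Finset.mem_filter.1 hx).2
    rw [fill_none hA] at h2
    have h3 := h1 x hx
    rcases hJx : J x with e | e
    · rw [hJx] at h3; exact absurd h3 (by simp)
    · rw [hJx] at h2
      simp only [Sum.elim_inr] at h2 ⊢
      rw [h2]
  · rintro _ ⟨t, ht, rfl⟩ J b hb
    rw [Th_apply] at hb
    have h1 : ∀ x ∈ SR A, (J x).isRight := by
      by_contra h
      rw [if_neg h] at hb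
      exact hb rfl
    rw [if_pos h1] at hb
    have h2 := hWd t ht _ b hb
    have h2' := hWa t ht _ b hb
    rw [← h2]
    congr 1
    refine Finset.sum_congr rfl fun x _ => ?_
    cases hA : A x with
    | none =>
      have h4 := h2' x
      rw [fill_none hA] at h4 ⊢
      have h3 := h1 x (Finset.mem_filter.2 ⟨Finset.mem_univ _, hA⟩)
      rcases hJx : J x with e | e
      · rw [hJx] at h3; exact absurd h3 (by simp)
      · rw [hJx] at h4
        simp only [Sum.elim_inr] at h4 ⊢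
        rw [h4]
        rfl
    | some e =>
      rw [fill_some hA]
      rfl
  · intro Z hZ hZs y hy
    obtain ⟨Z', h1, h2, h3⟩ := skew_form (T := T) hZ hZs
    rw [hcs] at hy ⊢
    obtain ⟨y, hy, rfl⟩ := hy
    rw [h1, ← Th_aS]
    exact ⟨_, hstab Z' h2 h3 y hy, rfl⟩
  · rw [hcs]
    refine hlev.map fun y _ => ?_
    rw [Dop_apply, Dop_apply, map_add, Th_aS]
    congr 1
    funext J
    rw [zz_apply, Th_apply, Th_apply]
    split_ifs
    · rfl
    · exact Matrix.mulVec_zero _

/-- **The generalized Hodge conjecture for products of surfaces with a variety.** -/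
theorem ghc (hT : Full T c k) (hk : ∀ i, k i = 2 * p i + q i)
    (htr : ∀ i, ∑ a with c a = i, (T.x * T.x) a a = 2 * (p i : ℂ)) (hS : Stable T c V)
    (hZ : GHCZ V Nz) (i j : ℕ)
    (W : Submodule ℚ ((Fin m → Fin s ⊕ Fin n) → Fin v → ℚ))
    (hWa : ∀ t ∈ W, ∀ J b, t J b ≠ 0 → ∀ x, Sum.elim d c (J x) = a x)
    (hWd : ∀ t ∈ W, ∀ J b, t J b ≠ 0 →
      ∑ x, Sum.elim (fun e => 2 * ν e) (fun e => 2 * f (c e) + 2) (J x) + V.dg b = i)
    (hWn : ∀ t ∈ W, ∀ J b, t J b ≠ 0 → ∀ y,
      (univ.filter fun x => ∃ e, J x = Sum.inr e ∧ c e = y).card ≤ p y ∧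
      2 * (univ.filter fun x => ∃ e, J x = Sum.inr e ∧ c e = y).card < k y)
    (hWs : SubHS T V ((i : ℤ) - 2 * j) W) :
    W ≤ coniv T c d ν f Nz a j := by
  obtain ⟨w⟩ := exists_witt hT hk htr s
  intro t ht
  rw [eq_sum t]
  refine Submodule.sum_mem _ fun A _ => ?_
  have hg := good_type (ν := ν) hS hWa hWd hWs A
  -- trivial types
  by_cases htriv : W.map (Th (F := ℚ) A) = ⊥
  · have h1 : Th (F := ℚ) A t = 0 := by
      have h2 : Th (F := ℚ) A t ∈ W.map (Th (F := ℚ) A) := ⟨t, ht, rfl⟩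
      rwa [htriv, Submodule.mem_bot] at h2
    have h0 : Ps A (0 : (Fin m → Fin s ⊕ Fin n) → Fin v → ℚ) = 0 := by
      funext J
      simp [Ps]
    rw [h1, h0]
    exact Submodule.zero_mem _
  obtain ⟨_, ⟨t', ht', rfl⟩, hne⟩ := Submodule.exists_mem_ne_zero_of_ne_bot htriv
  obtain ⟨J, hJ⟩ := Function.ne_iff.1 hne
  rw [Th_apply] at hJ
  have h1 : ∀ x ∈ SR A, (J x).isRight := by
    by_contra h
    rw [if_neg h] at hJ
    exact hJ rfl
  rw [if_pos h1] at hJ
  obtain ⟨b, hb⟩ := Function.ne_iff.1 hJ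
  have ha' := hWa t' ht' _ b hb
  have hn' := hWn t' ht' _ b hb
  -- the number of slots of each colour
  have hcnt : ∀ x ∈ SR A, ((SR A).filter fun y => a y = a x) ⊆
      univ.filter fun y => ∃ e, fill A J y = Sum.inr e ∧ c e = a x := by
    intro x _ y hy
    obtain ⟨hy1, hy2⟩ := Finset.mem_filter.1 hy
    refine Finset.mem_filter.2 ⟨Finset.mem_univ _, ?_⟩
    have hAy : A y = none := (Finset.mem_filter.1 hy1).2
    have h2 := h1 y hy1
    have h3 := ha' y
    rw [fill_none hAy] at h3 ⊢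
    rcases hJy : J y with e | e
    · rw [hJy] at h2; exact absurd h2 (by simp)
    · rw [hJy] at h3
      exact ⟨e, rfl, by rw [← hy2]; exact h3⟩
  refine Ps_mem (i := i) w hZ A ?_ ?_
  · intro x e he
    have h3 := ha' x
    rw [fill_some he] at h3
    exact h3
  · have hBs : (BQ s T)ᵀ = BQ s T := by
      rw [fromBlocks_transpose, Matrix.transpose_nonsing_inv, T.symm]
      simp
    refine main_induction w (hX_T hT) (AQ_blk hT) (BQ_blk w) hBs V.real _ (SR A) rfl ?_ ?_
      (le_FF hg ⟨t, ht, rfl⟩)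
    · intro x hx
      exact lt_of_le_of_lt (Nat.mul_le_mul_left 2 (Finset.card_le_card (hcnt x hx)))
        (hn' (a x)).2
    · intro x hx
      exact (Finset.card_le_card (hcnt x hx)).trans (hn' (a x)).1


/-- **The stability, from complex multiplication or from periods.** -/
theorem stable_of (hT : Full T c k)
    (h : (∀ σ τ : ℂ ≃+* ℂ, V.z.map σ * V.z.map τ = V.z.map τ * V.z.map σ) ∨
      ∃ K : Subfield ℂ, (∀ b b', V.z b b' ∈ K) ∧
        ∀ i, ∃ a b, c a = i ∧ c b = i ∧ Transcendental K (T.x a b)) :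
    Stable T c V := by
  intro s m W hW Z hZ hZc
  rcases h with h | ⟨K, hK, hx⟩
  · exact stab_cm hT h W hW Z hZ hZc
  · exact stab_over hT K hK hx W hW Z hZ hZc

/-- the small generated case, of the library -/
theorem stable_small {G : Gens g N} (hT : Full T c k) (hG : Small T c G) (hV : V.GenBy G) :
    Stable T c V := by
  intro s m W hW Z hZ hZc
  exact stab hT hG hV W hW Z hZ hZc

end

end Pool.Agent.U228.GP
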