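import Pool.Agent.U228.GP.Quot

/-!
# The numerical criterion: Hodge numbers of the Hodge Lie algebra
-/

set_option autoImplicit false
set_option linter.unusedSectionVars false

open Finset Module Matrix

namespace Pool.Agent.U228.GP

open Pool.Agent.W544.PG Pool.Agent.TH164.HC Pool.Agent.TH164.GHC Pool.Agent.U228.KP

noncomputable section

variable {n r s v m : ℕ} {T : HS n} {c : Fin n → Fin r} {k : Fin r → ℕ}

/-- The component of type `(l, -l)` of the Hodge Lie algebra. -/
def HLieType {v : ℕ} (z : Matrix (Fin v) (Fin v) ℂ) (l : ℤ) : Submodule ℂ (Matrix (Fin v) (Fin v) ℂ) where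
  carrier := {A | A ∈ HLie z ∧ z * A - A * z = (l : ℂ) • A}
  zero_mem' := ⟨Submodule.zero_mem _, by simp⟩
  add_mem' := by
    rintro A B ⟨h1, h2⟩ ⟨h3, h4⟩
    refine ⟨Submodule.add_mem _ h1 h3, ?_⟩
    rw [Matrix.mul_add, Matrix.add_mul, add_sub_add_comm, h2, h4, smul_add]
  smul_mem' := by
    rintro w A ⟨h1, h2⟩
    refine ⟨Submodule.smul_mem _ _ h1, ?_⟩
    rw [Matrix.mul_smul, Matrix.smul_mul, ← smul_sub, h2, smul_comm]

/-- the adjoint operator -/
def adz {N : ℕ} (z : Matrix (Fin N) (Fin N) ℂ) : Module.End ℂ (Matrix (Fin N) (Fin N) ℂ) :=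
  LinearMap.mulLeft ℂ z - LinearMap.mulRight ℂ z

theorem adz_apply {N : ℕ} (z A : Matrix (Fin N) (Fin N) ℂ) : adz z A = z * A - A * z := rfl

/-- The adjoint operator of a diagonalisable operator is diagonalisable. -/
theorem adz_diag {z : Matrix (Fin v) (Fin v) ℂ}
    (hz : ∀ x : Fin v → ℂ, x ∈ Submodule.span ℂ {y | ∃ μ : ℂ, z *ᵥ y = μ • y}) :
    ⨆ μ, (adz z).eigenspace μ = ⊤ := by
  classical
  rw [eq_top_iff]
  intro B _
  obtain ⟨S, hS⟩ : ∃ S : Set (Fin v → ℂ), S = {y | ∃ μ : ℂ, z *ᵥ y = μ • y} := ⟨_, rfl⟩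
  have hs : ⊤ ≤ Submodule.span ℂ S := by
    rw [hS]
    exact fun x _ => hz x
  have hb : ∀ i, (Basis.ofSpan hs) i ∈ S := fun i => Basis.ofSpan_subset hs ⟨i, rfl⟩
  obtain ⟨ι, b, hb⟩ : ∃ (ι : Type) (b : Basis ι ℂ (Fin v → ℂ)), ∀ i, b i ∈ S := ⟨_, _, hb⟩
  have : Fintype ι := FiniteDimensional.fintypeBasisIndex b
  rw [hS] at hb
  choose d hd using hb
  -- the left eigenvectors
  let w : ι → Fin v → ℂ := fun i j => b.repr (Pi.single j 1) i
  have hw : ∀ i (y : Fin v → ℂ), w i ⬝ᵥ y = b.repr y i := by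
    intro i y
    have h1 : y = ∑ j, y j • (Pi.single j (1 : ℂ) : Fin v → ℂ) := by
      funext l
      rw [Finset.sum_apply, Finset.sum_eq_single l]
      · simp
      · intro j _ hj
        simp [Pi.single_eq_of_ne (Ne.symm hj)]
      · simp
    conv_rhs => rw [h1]
    rw [map_sum, Finsupp.finsetSum_apply]
    unfold dotProduct
    refine Finset.sum_congr rfl fun j _ => ?_
    rw [map_smul, Finsupp.smul_apply, smul_eq_mul, mul_comm]
  have hwz : ∀ i, w i ᵥ* z = d i • w i := by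
    intro i
    funext j
    have h1 : (w i ᵥ* z) j = w i ⬝ᵥ (z *ᵥ Pi.single j 1) := by
      rw [Matrix.dotProduct_mulVec, dotProduct_single, mul_one]
    rw [h1, hw]
    have h2 : (Pi.single j (1 : ℂ) : Fin v → ℂ) = ∑ l, b.repr (Pi.single j 1) l • b l :=
      (b.sum_repr _).symm
    have h3 : z *ᵥ (Pi.single j (1 : ℂ)) = ∑ l, (b.repr (Pi.single j 1) l * d l) • b l := by
      conv_lhs => rw [h2]
      rw [Matrix.mulVec_sum]
      refine Finset.sum_congr rfl fun l _ => ?_
      rw [Matrix.mulVec_smul, hd, smul_smul]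
    rw [h3, b.repr_sum_self]
    change b.repr (Pi.single j 1) i * d i = d i * b.repr (Pi.single j 1) i
    ring
  -- decomposition
  have hB : B = ∑ i, Matrix.vecMulVec (B *ᵥ b i) (w i) := by
    have h1 : ∀ y, B *ᵥ y = (∑ i, Matrix.vecMulVec (B *ᵥ b i) (w i)) *ᵥ y := by
      intro y
      rw [Matrix.sum_mulVec]
      have h2 : y = ∑ l, b.repr y l • b l := (b.sum_repr y).symm
      conv_lhs => rw [h2]
      rw [Matrix.mulVec_sum]
      refine Finset.sum_congr rfl fun l _ => ?_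
      rw [Matrix.mulVec_smul]
      funext a
      rw [Pi.smul_apply, smul_eq_mul, ← hw]
      change _ = ∑ j, (B *ᵥ b l) a * w l j * y j
      unfold dotProduct
      rw [Finset.sum_mul]
      refine Finset.sum_congr rfl fun j _ => ?_
      ring
    ext a j
    have h2 := congrFun (h1 (Pi.single j 1)) a
    rwa [Matrix.mulVec_single_one, Matrix.mulVec_single_one] at h2
  rw [hB]
  refine Submodule.sum_mem _ fun i _ => ?_
  have hu := hz (B *ᵥ b i)
  generalize B *ᵥ b i = u at hu ⊢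
  induction hu using Submodule.span_induction with
  | mem u hu =>
    obtain ⟨μ, hμ⟩ := hu
    refine Submodule.mem_iSup_of_mem (μ - d i) ?_
    rw [Module.End.mem_eigenspace_iff, adz_apply, Matrix.mul_vecMulVec, Matrix.vecMulVec_mul, hμ,
      hwz, Matrix.smul_vecMulVec, Matrix.vecMulVec_smul, sub_smul]
  | zero =>
    rw [Matrix.zero_vecMulVec]
    exact Submodule.zero_mem _
  | add x y _ _ hx hy =>
    rw [Matrix.add_vecMulVec]
    exact Submodule.add_mem _ hx hy
  | smul a x _ hx =>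
    rw [Matrix.smul_vecMulVec]
    exact Submodule.smul_mem _ _ hx

/-- **The numerical criterion.** If some Hodge number of the Hodge Lie algebra of `V` is smaller than
the one of `so(T_i)` then the Hodge Lie algebra of `V` has no quotient `so(T_i)`. -/
theorem noQuot_num (hT : Full T c k) {z : Matrix (Fin v) (Fin v) ℂ}
    (hz : ∀ x : Fin v → ℂ, x ∈ Submodule.span ℂ {y | ∃ μ : ℂ, z *ᵥ y = μ • y}) (i : Fin r) (l : ℤ)
    (h : finrank ℂ (HLieType z l) < finrank ℂ (adj T.Q T.x c i l)) : NoQuot T c z i := by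
  rintro ⟨φ, h1, h2⟩
  have hid : ∀ {N : ℕ} (M : Matrix (Fin N) (Fin N) ℂ), M.map (RingEquiv.refl ℂ) = M := by
    intro N M
    ext a b
    rfl
  have hzm : z ∈ HLie z := by
    have h3 := HLie_map z (RingEquiv.refl ℂ)
    rwa [hid] at h3
  have hφz : φ z = blk c i T.x := by
    have h3 := h2 (RingEquiv.refl ℂ)
    rwa [hid, hid] at h3
  -- the eigenspaces of the Hodge Lie algebra
  have hp : HLie z = ⨆ μ, HLie z ⊓ (adz z).eigenspace μ :=
    Submodule.eq_iSup_inf_genEigenspace 1 (fun x hx => HLie_br hzm hx) (adz_diag hz)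
  have hle : adj T.Q T.x c i l ≤ (HLieType z l).map φ := by
    rintro Z ⟨a1, a2, a3⟩
    have hZc : BD c Z := by
      intro a b hab
      by_contra h0
      obtain ⟨e1, e2⟩ := a1 a b h0
      exact hab (e1.trans e2.symm)
    have hZb : blk c i Z = Z := by
      ext a b
      rw [blk_apply]
      split_ifs with h0
      · rfl
      · by_contra h3
        exact h0 (a1 a b (Ne.symm h3))
    obtain ⟨A, hA, hAZ⟩ := surj_of hT i h1 h2 Z a2 hZc
    rw [hZb] at hAZ
    rw [hp, iSup_split_single _ (l : ℂ)] at hA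
    obtain ⟨A₁, hA₁, A₂, hA₂, rfl⟩ := Submodule.mem_sup.1 hA
    have hmap : ∀ μ : ℂ, ∀ B ∈ HLie z ⊓ (adz z).eigenspace μ,
        φ B ∈ (adz (blk c i T.x)).eigenspace μ := by
      rintro μ B ⟨b1, b2⟩
      have b2' : z * B - B * z = μ • B := Module.End.mem_eigenspace_iff.1 b2
      rw [Module.End.mem_eigenspace_iff, adz_apply, ← hφz, ← h1 z hzm B b1, b2', map_smul]
    have h3 : φ A₂ ∈ ⨆ (μ : ℂ) (_ : μ ≠ l), (adz (blk c i T.x)).eigenspace μ := by
      have h4 : (⨆ (μ : ℂ) (_ : μ ≠ l), HLie z ⊓ (adz z).eigenspace μ) ≤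
          (⨆ (μ : ℂ) (_ : μ ≠ l), (adz (blk c i T.x)).eigenspace μ).comap φ := by
        refine iSup₂_le fun μ hμ B hB => ?_
        exact Submodule.mem_iSup_of_mem μ (Submodule.mem_iSup_of_mem hμ (hmap μ B hB))
      exact h4 hA₂
    have h5 : φ A₂ ∈ (adz (blk c i T.x)).eigenspace (l : ℂ) := by
      have h6 : φ A₂ = Z - φ A₁ := by
        rw [← hAZ, map_add]
        abel
      rw [h6]
      refine Submodule.sub_mem _ ?_ (hmap _ _ hA₁)
      rw [Module.End.mem_eigenspace_iff, adz_apply]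
      have h7 := blk_br (c := c) i hT.bx hZc
      rw [hZb] at h7
      rw [← h7, a3, map_smul, hZb]
    have h8 : φ A₂ = 0 := by
      have h9 := (Module.End.eigenspaces_iSupIndep (adz (blk c i T.x))) (l : ℂ)
      exact Submodule.disjoint_def.1 h9 _ h5 h3
    refine ⟨A₁, ⟨hA₁.1, ?_⟩, ?_⟩
    · exact Module.End.mem_eigenspace_iff.1 hA₁.2
    · rw [← hAZ, map_add, h8, add_zero]
  have h10 := Submodule.finrank_mono hle
  have h11 := Submodule.finrank_map_le φ (HLieType z l)
  omega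

end

end Pool.Agent.U228.GP
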