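import Pool.Agent.U228.GP.Stab

/-!
# Goursat's lemma for the Hodge Lie algebra of `T + V`
-/

set_option autoImplicit false
set_option linter.unusedSectionVars false

open Finset Module Matrix

namespace Pool.Agent.U228.GP

open Pool.Agent.W544.PG Pool.Agent.TH164.HC Pool.Agent.TH164.GHC Pool.Agent.U228.KP

noncomputable section

/-- The smallest complex Lie algebra of matrices which contains all conjugates of `z` under the
automorphisms of `ℂ`. If `z` is the Hodge operator of a rational Hodge structure `V`, this is the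
complexified Lie algebra of the Hodge group of `V`. -/
def HLie {v : ℕ} (z : Matrix (Fin v) (Fin v) ℂ) : Submodule ℂ (Matrix (Fin v) (Fin v) ℂ) :=
  sInf {h | (∀ A ∈ h, ∀ B ∈ h, A * B - B * A ∈ h) ∧ ∀ σ : ℂ ≃+* ℂ, z.map σ ∈ h}

/-- The part of an operator on `T` which belongs to `T_i`. -/
def blk {n r : ℕ} (c : Fin n → Fin r) (i : Fin r) :
    Matrix (Fin n) (Fin n) ℂ →ₗ[ℂ] Matrix (Fin n) (Fin n) ℂ where
  toFun Z := Matrix.of fun a b => if c a = i ∧ c b = i then Z a b else 0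
  map_add' := by
    intro Z Z'
    ext a b
    simp only [Matrix.of_apply, Matrix.add_apply]
    split_ifs
    · rfl
    · rw [add_zero]
  map_smul' := by
    intro w Z
    ext a b
    simp only [Matrix.of_apply, Matrix.smul_apply, RingHom.id_apply]
    split_ifs
    · rfl
    · rw [smul_zero]

/-- The Hodge Lie algebra of `V` has no quotient isomorphic to `so(T_i)` as a rational Hodge structure
with a bracket: there is no homomorphism of Lie algebras, from the Hodge Lie algebra of `V`, which takes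
each conjugate of the Hodge operator of `V` to the same conjugate of the Hodge operator of `T_i`. -/
def NoQuot {n r v : ℕ} (T : HS n) (c : Fin n → Fin r) (z : Matrix (Fin v) (Fin v) ℂ) (i : Fin r) :
    Prop :=
  ¬ ∃ φ : Matrix (Fin v) (Fin v) ℂ →ₗ[ℂ] Matrix (Fin n) (Fin n) ℂ,
    (∀ A ∈ HLie z, ∀ B ∈ HLie z, φ (A * B - B * A) = φ A * φ B - φ B * φ A) ∧
    ∀ σ : ℂ ≃+* ℂ, φ (z.map σ) = blk c i (T.x.map σ)

variable {n r s v m : ℕ} {T : HS n} {c : Fin n → Fin r} {k : Fin r → ℕ}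

theorem HLie_le {z : Matrix (Fin v) (Fin v) ℂ} {h : Submodule ℂ (Matrix (Fin v) (Fin v) ℂ)}
    (h1 : ∀ A ∈ h, ∀ B ∈ h, A * B - B * A ∈ h) (h2 : ∀ σ : ℂ ≃+* ℂ, z.map σ ∈ h) : HLie z ≤ h :=
  sInf_le ⟨h1, h2⟩

theorem HLie_br {z A B : Matrix (Fin v) (Fin v) ℂ} (hA : A ∈ HLie z) (hB : B ∈ HLie z) :
    A * B - B * A ∈ HLie z := by
  unfold HLie at *
  rw [Submodule.mem_sInf] at *
  intro h hh
  exact hh.1 A (hA h hh) B (hB h hh)

theorem HLie_map (z : Matrix (Fin v) (Fin v) ℂ) (σ : ℂ ≃+* ℂ) : z.map σ ∈ HLie z := by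
  unfold HLie
  rw [Submodule.mem_sInf]
  intro h hh
  exact hh.2 σ

theorem blk_apply (i : Fin r) (Z : Matrix (Fin n) (Fin n) ℂ) (a b : Fin n) :
    blk c i Z a b = if c a = i ∧ c b = i then Z a b else 0 := rfl

theorem blk_mul (i : Fin r) {Z Z' : Matrix (Fin n) (Fin n) ℂ} (hZ : BD c Z) :
    blk c i (Z * Z') = blk c i Z * blk c i Z' := by
  ext a b
  rw [blk_apply, Matrix.mul_apply]
  by_cases h : c a = i ∧ c b = i
  · rw [if_pos h, Matrix.mul_apply]
    refine Finset.sum_congr rfl fun l _ => ?_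
    rw [blk_apply, blk_apply]
    by_cases hl : c l = i
    · rw [if_pos ⟨h.1, hl⟩, if_pos ⟨hl, h.2⟩]
    · rw [if_neg fun h0 => hl h0.2, zero_mul, hZ a l, zero_mul]
      intro h0
      exact hl (by rw [← h0]; exact h.1)
  · rw [if_neg h, Matrix.mul_apply]
    symm
    refine Finset.sum_eq_zero fun l _ => ?_
    rw [blk_apply, blk_apply]
    by_cases ha : c a = i
    · have hb : ¬ (c l = i ∧ c b = i) := fun h0 => h ⟨ha, h0.2⟩
      rw [if_neg hb, mul_zero]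
    · have hb : ¬ (c a = i ∧ c l = i) := fun h0 => ha h0.1
      rw [if_neg hb, zero_mul]

theorem blk_br (i : Fin r) {Z Z' : Matrix (Fin n) (Fin n) ℂ} (hZ : BD c Z) (hZ' : BD c Z') :
    blk c i (Z * Z' - Z' * Z) = blk c i Z * blk c i Z' - blk c i Z' * blk c i Z := by
  rw [map_sub, blk_mul i hZ, blk_mul i hZ']

theorem BD_blk (i : Fin r) (Z : Matrix (Fin n) (Fin n) ℂ) : BD c (blk c i Z) := by
  intro a b hab
  rw [blk_apply, if_neg]
  rintro ⟨h1, h2⟩
  exact hab (h1.trans h2.symm)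

/-- **Goursat's lemma.** If the Hodge Lie algebra of `V` has no quotient `so(T_i)` then each Lie algebra
of pairs of operators which contains the conjugates of the Hodge operators contains an operator on `T`
alone which is not zero on `T_i`. -/
theorem exists_alone (i : Fin r) {z : Matrix (Fin v) (Fin v) ℂ} (hno : NoQuot T c z i)
    (L : Submodule ℂ (Matrix (Fin n) (Fin n) ℂ × Matrix (Fin v) (Fin v) ℂ))
    (hBD : ∀ p ∈ L, BD c p.1)
    (hbr : ∀ p ∈ L, ∀ q ∈ L, (p.1 * q.1 - q.1 * p.1, p.2 * q.2 - q.2 * p.2) ∈ L)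
    (hσ : ∀ σ : ℂ ≃+* ℂ, (T.x.map σ, z.map σ) ∈ L) :
    ∃ A, (A, 0) ∈ L ∧ ∃ a b, c a = i ∧ c b = i ∧ A a b ≠ 0 := by
  by_contra hcon
  push Not at hcon
  apply hno
  -- the homomorphism
  let f : L →ₗ[ℂ] Matrix (Fin v) (Fin v) ℂ := (LinearMap.snd ℂ _ _).comp L.subtype
  let g : L →ₗ[ℂ] Matrix (Fin n) (Fin n) ℂ :=
    ((blk c i).comp (LinearMap.fst ℂ _ _)).comp L.subtype
  have hker : LinearMap.ker f ≤ LinearMap.ker g := by
    rintro ⟨⟨A, B⟩, hp⟩ h1
    have hB : B = 0 := h1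
    subst hB
    rw [LinearMap.mem_ker]
    change blk c i A = 0
    ext a b
    rw [blk_apply]
    split_ifs with h
    · exact hcon A hp a b h.1 h.2
    · rfl
  obtain ⟨φ, hφ⟩ : ∃ φ : Matrix (Fin v) (Fin v) ℂ →ₗ[ℂ] Matrix (Fin n) (Fin n) ℂ,
      ∀ p : L, φ (f p) = g p := by
    let φ₀ : LinearMap.range f →ₗ[ℂ] Matrix (Fin n) (Fin n) ℂ :=
      ((LinearMap.ker f).liftQ g hker).comp f.quotKerEquivRange.symm.toLinearMap
    obtain ⟨φ, hφ⟩ := LinearMap.exists_extend φ₀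
    refine ⟨φ, fun p => ?_⟩
    have h1 := LinearMap.congr_fun hφ ⟨f p, LinearMap.mem_range_self f p⟩
    have h2 : f.quotKerEquivRange.symm ⟨f p, LinearMap.mem_range_self f p⟩ =
        (LinearMap.ker f).mkQ p := by
      rw [LinearEquiv.symm_apply_eq]
      rfl
    change φ (f p) = (LinearMap.ker f).liftQ g hker
      (f.quotKerEquivRange.symm ⟨f p, LinearMap.mem_range_self f p⟩) at h1
    rw [h1, h2]
    exact Submodule.liftQ_apply _ _ _
  have hφ' : ∀ p ∈ L, φ p.2 = blk c i p.1 := fun p hp => hφ ⟨p, hp⟩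
  have hle : HLie z ≤ L.map (LinearMap.snd ℂ _ _) := by
    refine HLie_le ?_ fun σ => ⟨_, hσ σ, rfl⟩
    rintro _ ⟨p, hp, rfl⟩ _ ⟨q, hq, rfl⟩
    exact ⟨_, hbr p hp q hq, rfl⟩
  refine ⟨φ, ?_, fun σ => hφ' _ (hσ σ)⟩
  intro A hA B hB
  obtain ⟨p, hp, rfl⟩ := hle hA
  obtain ⟨q, hq, rfl⟩ := hle hB
  have h1 := hφ' _ (hbr p hp q hq)
  change φ (p.2 * q.2 - q.2 * p.2) = φ p.2 * φ q.2 - φ q.2 * φ p.2
  rw [hφ' p hp, hφ' q hq]
  rw [← blk_br i (hBD p hp) (hBD q hq)]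
  exact h1

/-- A homomorphism as in `NoQuot` is surjective onto `so(T_i)`. -/
theorem surj_of (hT : Full T c k) (i : Fin r) {z : Matrix (Fin v) (Fin v) ℂ}
    {φ : Matrix (Fin v) (Fin v) ℂ →ₗ[ℂ] Matrix (Fin n) (Fin n) ℂ}
    (h1 : ∀ A ∈ HLie z, ∀ B ∈ HLie z, φ (A * B - B * A) = φ A * φ B - φ B * φ A)
    (h2 : ∀ σ : ℂ ≃+* ℂ, φ (z.map σ) = blk c i (T.x.map σ)) (Z : Matrix (Fin n) (Fin n) ℂ)
    (hZ : Zᵀ * mC T.Q + mC T.Q * Z = 0) (hZc : BD c Z) : ∃ A ∈ HLie z, φ A = blk c i Z := by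
  let h : Submodule ℂ (Matrix (Fin n) (Fin n) ℂ) :=
    { carrier := {Z | BD c Z ∧ ∃ A ∈ HLie z, φ A = blk c i Z}
      zero_mem' := ⟨fun a b _ => rfl, 0, Submodule.zero_mem _, by rw [map_zero, map_zero]⟩
      add_mem' := by
        rintro Z Z' ⟨a1, A, a2, a3⟩ ⟨b1, B, b2, b3⟩
        refine ⟨fun a b hab => ?_, A + B, Submodule.add_mem _ a2 b2, ?_⟩
        · rw [Matrix.add_apply, a1 a b hab, b1 a b hab, add_zero]
        · rw [map_add, map_add, a3, b3]
      smul_mem' := by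
        rintro w Z ⟨a1, A, a2, a3⟩
        refine ⟨fun a b hab => ?_, w • A, Submodule.smul_mem _ _ a2, ?_⟩
        · rw [Matrix.smul_apply, a1 a b hab, smul_zero]
        · rw [map_smul, map_smul, a3] }
  refine (hT.full h ?_ ?_ Z hZ hZc).2
  · rintro Z ⟨a1, A, a2, a3⟩ Z' ⟨b1, B, b2, b3⟩
    refine ⟨BD_br a1 b1, _, HLie_br a2 b2, ?_⟩
    rw [h1 A a2 B b2, a3, b3, blk_br i a1 b1]
  · intro σ
    exact ⟨hT.bx.map (map_zero σ), _, HLie_map z σ, h2 σ⟩

/-- **Complex multiplication.** A commutative Lie algebra has no quotient `so(T_i)`. -/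
theorem noQuot_cm (hT : Full T c k) {z : Matrix (Fin v) (Fin v) ℂ}
    (hz : ∀ σ τ : ℂ ≃+* ℂ, z.map σ * z.map τ = z.map τ * z.map σ) (i : Fin r) : NoQuot T c z i := by
  rintro ⟨φ, h1, h2⟩
  let 𝔱 : Submodule ℂ (Matrix (Fin v) (Fin v) ℂ) :=
    Submodule.span ℂ {B | ∃ σ : ℂ ≃+* ℂ, B = z.map σ}
  have hcomm : ∀ B ∈ 𝔱, ∀ B' ∈ 𝔱, B * B' = B' * B := by
    intro B hB B' hB'
    induction hB using Submodule.span_induction with
    | mem B hB =>
      obtain ⟨σ, rfl⟩ := hB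
      induction hB' using Submodule.span_induction with
      | mem B' hB' =>
        obtain ⟨τ, rfl⟩ := hB'
        exact hz σ τ
      | zero => rw [Matrix.mul_zero, Matrix.zero_mul]
      | add x y _ _ hx hy => rw [Matrix.mul_add, Matrix.add_mul, hx, hy]
      | smul a x _ hx => rw [Matrix.mul_smul, Matrix.smul_mul, hx]
    | zero => rw [Matrix.mul_zero, Matrix.zero_mul]
    | add x y _ _ hx hy => rw [Matrix.mul_add, Matrix.add_mul, hx, hy]
    | smul a x _ hx => rw [Matrix.mul_smul, Matrix.smul_mul, hx]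
  have hle : HLie z ≤ 𝔱 := by
    refine HLie_le (fun A hA B hB => ?_) fun σ => Submodule.subset_span ⟨σ, rfl⟩
    rw [hcomm A hA B hB, sub_self]
    exact Submodule.zero_mem _
  obtain ⟨Z, Z', ⟨a1, a2⟩, ⟨b1, b2⟩, a, b, ha, hb, hne⟩ := exists_br hT i
  obtain ⟨A, hA, hA'⟩ := surj_of hT i h1 h2 Z a1 a2
  obtain ⟨B, hB, hB'⟩ := surj_of hT i h1 h2 Z' b1 b2
  apply hne
  have h3 := h1 A hA B hB
  rw [hcomm A (hle hA) B (hle hB), sub_self, map_zero, hA', hB', ← blk_br i a2 b2] at h3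
  have h4 := congrFun (congrFun h3 a) b
  rw [blk_apply, if_pos ⟨ha, hb⟩] at h4
  exact h4.symm

end

end Pool.Agent.U228.GP
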