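import Pool.Agent.U228.GP.Quot
import Pool.Agent.U228.GP.Ghc

/-!
# Sub-Hodge structures and Hodge classes: separation of the variables
-/

set_option autoImplicit false
set_option linter.unusedSectionVars false

open Finset Module Matrix

namespace Pool.Agent.U228.GP

open Pool.Agent.W544.PG Pool.Agent.TH164.HC Pool.Agent.TH164.GHC Pool.Agent.U228.KP

noncomputable section

/-- The operator `z` is defined over a subfield `K` of `ℂ` over which some entry of the Hodge operator
of `T_i` is transcendental. -/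
def TransAt {n r v : ℕ} (T : HS n) (c : Fin n → Fin r) (z : Matrix (Fin v) (Fin v) ℂ) (i : Fin r) :
    Prop :=
  ∃ K : Subfield ℂ, (∀ b b', z b b' ∈ K) ∧ ∃ a b, c a = i ∧ c b = i ∧ Transcendental K (T.x a b)

variable {n r s v m : ℕ} {T : HS n} {c : Fin n → Fin r} {k : Fin r → ℕ}

/-- A derivation which kills the entries of `z` and not the entry of `T.x`. -/
theorem exists_der {z : Matrix (Fin v) (Fin v) ℂ} {i : Fin r} (h : TransAt T c z i) :
    ∃ δ : Derivation ℚ ℂ ℂ, (∀ b b', δ (z b b') = 0) ∧
      ∃ a b, c a = i ∧ c b = i ∧ δ (T.x a b) ≠ 0 := by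
  obtain ⟨K, hK, a, b, ha, hb, htr⟩ := h
  have hai : AlgebraicIndependent K fun _ : Unit => T.x a b :=
    algebraicIndependent_unique_type_iff.2 htr
  obtain ⟨δ, hδK, hδ⟩ := Pool.Agent.TH504.CB.exists_derivationK hai fun _ => (1 : ℂ)
  refine ⟨δ, fun b b' => hδK ⟨_, hK b b'⟩, a, b, ha, hb, ?_⟩
  rw [hδ ()]
  exact one_ne_zero

theorem skew_der (T : HS n) (δ : Derivation ℚ ℂ ℂ) :
    (T.x.map δ)ᵀ * mC T.Q + mC T.Q * T.x.map δ = 0 := by
  have hq : ∀ q : ℚ, δ (q : ℂ) = 0 := by
    intro q
    have h1 := δ.map_algebraMap q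
    simpa using h1
  ext i j
  have h1 := congrArg δ (congrFun (congrFun T.skew i) j)
  rw [Matrix.add_apply, Matrix.mul_apply, Matrix.mul_apply, map_add, map_sum, map_sum,
    Matrix.zero_apply, map_zero] at h1
  rw [Matrix.add_apply, Matrix.mul_apply, Matrix.mul_apply, Matrix.zero_apply, ← h1]
  congr 1
  · refine Finset.sum_congr rfl fun l _ => ?_
    rw [Derivation.leibniz]
    simp only [mC, Matrix.map_apply, Matrix.transpose_apply, hq, smul_eq_mul]
    ring
  · refine Finset.sum_congr rfl fun l _ => ?_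
    rw [Derivation.leibniz]
    simp only [mC, Matrix.map_apply, hq, smul_eq_mul]
    ring

/-- **Stability of sub-Hodge structures.** -/
theorem stable_all {V : Coh v} (hT : Full T c k) (h : ∀ i, NoQuot T c V.z i ∨ TransAt T c V.z i) :
    Stable T c V := by
  intro s m W hW Z hZ hZc
  refine (full_mem hT (NW T.Q c W) (fun y hy => hy.1) (fun σ y hy => ?_) (fun i => ?_) Z hZ hZc).2
  · refine NW_norm (z := V.z.map σ) (skew_map T.skew σ) (hT.bx.map (map_zero σ)) ?_ hy
    rw [ex_map]
    exact conj_stab hW σ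
  rcases h i with h | h
  · let L : Submodule ℂ (Matrix (Fin n) (Fin n) ℂ × Matrix (Fin v) (Fin v) ℂ) :=
      { carrier := {p | (p.1ᵀ * mC T.Q + mC T.Q * p.1 = 0 ∧ BD c p.1) ∧
          ∀ y ∈ cs cE W, Dop p.2 (ex s p.1) univ y ∈ cs cE W}
        zero_mem' := by
          refine ⟨⟨by simp, fun a b _ => rfl⟩, fun y _ => ?_⟩
          have h1 : ex s (0 : Matrix (Fin n) (Fin n) ℂ) = 0 := by
            unfold ex
            simp
          have h4 : zz (0 : Matrix (Fin v) (Fin v) ℂ) y = 0 := by
            funext J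
            rw [zz_apply, Matrix.zero_mulVec]
            rfl
          rw [Dop_apply]
          change zz (0 : Matrix (Fin v) (Fin v) ℂ) y +
            aS univ (ex s (0 : Matrix (Fin n) (Fin n) ℂ)) y ∈ _
          rw [h1, aS_zero, h4, zero_add]
          exact Submodule.zero_mem _
        add_mem' := by
          rintro ⟨A, B⟩ ⟨A', B'⟩ ⟨⟨a1, a2⟩, h⟩ ⟨⟨b1, b2⟩, h'⟩
          refine ⟨⟨?_, fun a b hab => ?_⟩, fun y hy => ?_⟩
          · change (A + A')ᵀ * mC T.Q + mC T.Q * (A + A') = 0
            change Aᵀ * mC T.Q + mC T.Q * A = 0 at a1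
            change A'ᵀ * mC T.Q + mC T.Q * A' = 0 at b1
            rw [Matrix.transpose_add, Matrix.add_mul, Matrix.mul_add, add_add_add_comm, a1, b1,
              add_zero]
          · have e1 : A a b = 0 := a2 a b hab
            have e2 : A' a b = 0 := b2 a b hab
            change A a b + A' a b = 0
            rw [e1, e2, add_zero]
          · change Dop (B + B') (ex s (A + A')) univ y ∈ _
            have h1 : Dop (B + B') (ex s (A + A')) univ y =
                Dop B (ex s A) univ y + Dop B' (ex s A') univ y := by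
              rw [Dop_apply, Dop_apply, Dop_apply, ex_add, aS_add]
              have h2 : zz (B + B') y = zz B y + zz B' y := by
                funext J
                rw [Pi.add_apply, zz_apply, zz_apply, zz_apply, Matrix.add_mulVec]
              rw [h2, LinearMap.add_apply]
              abel
            rw [h1]
            exact Submodule.add_mem _ (h y hy) (h' y hy)
        smul_mem' := by
          rintro w ⟨A, B⟩ ⟨⟨a1, a2⟩, h⟩
          refine ⟨⟨?_, fun a b hab => ?_⟩, fun y hy => ?_⟩
          · change (w • A)ᵀ * mC T.Q + mC T.Q * (w • A) = 0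
            change Aᵀ * mC T.Q + mC T.Q * A = 0 at a1
            rw [Matrix.transpose_smul, Matrix.smul_mul, Matrix.mul_smul, ← smul_add, a1, smul_zero]
          · have e1 : A a b = 0 := a2 a b hab
            change w • A a b = 0
            rw [e1, smul_zero]
          · change Dop (w • B) (ex s (w • A)) univ y ∈ _
            have h1 : Dop (w • B) (ex s (w • A)) univ y = w • Dop B (ex s A) univ y := by
              rw [Dop_apply, Dop_apply, ex_smul, aS_smul]
              have h2 : zz (w • B) y = w • zz B y := by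
                funext J
                rw [Pi.smul_apply, zz_apply, zz_apply, Matrix.smul_mulVec]
              rw [h2, LinearMap.smul_apply, smul_add]
            rw [h1]
            exact Submodule.smul_mem _ _ (h y hy) }
    have hbr : ∀ p ∈ L, ∀ q ∈ L, (p.1 * q.1 - q.1 * p.1, p.2 * q.2 - q.2 * p.2) ∈ L := by
      rintro ⟨A, B⟩ ⟨⟨a1, a2⟩, h⟩ ⟨A', B'⟩ ⟨⟨b1, b2⟩, h'⟩
      refine ⟨⟨skew_br a1 b1, BD_br a2 b2⟩, fun y hy => ?_⟩
      change Dop (B * B' - B' * B) (ex s (A * A' - A' * A)) univ y ∈ _
      have h1 : Dop (B * B' - B' * B) (ex s (A * A' - A' * A)) univ y =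
          Dop B (ex s A) univ (Dop B' (ex s A') univ y) -
            Dop B' (ex s A') univ (Dop B (ex s A) univ y) := by
        have h5 : zz (B * B' - B' * B) y = zz B (zz B' y) - zz B' (zz B y) := by
          funext J
          rw [Pi.sub_apply, zz_apply, zz_apply, zz_apply, zz_apply, zz_apply,
            Matrix.mulVec_mulVec, Matrix.mulVec_mulVec, Matrix.sub_mulVec]
        rw [Dop_apply, ex_sub, ex_mul, ex_mul, ← aS_lie, LinearMap.sub_apply,
          Module.End.mul_apply, Module.End.mul_apply, h5]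
        simp only [Dop_apply, map_add, zz_aS]
        abel
      rw [h1]
      exact Submodule.sub_mem _ (h _ (h' _ hy)) (h' _ (h _ hy))
    have hσ : ∀ σ : ℂ ≃+* ℂ, (T.x.map σ, V.z.map σ) ∈ L := by
      intro σ
      refine ⟨⟨skew_map T.skew σ, hT.bx.map (map_zero σ)⟩, ?_⟩
      change ∀ y ∈ cs cE W, Dop (V.z.map σ) (ex s (T.x.map σ)) univ y ∈ cs cE W
      rw [ex_map]
      exact conj_stab hW σ
    obtain ⟨A, hA, a, b, ha, hb, hne⟩ := exists_alone i h L (fun p hp => hp.1.2) hbr hσ
    refine ⟨A, ⟨hA.1, fun y hy => ?_⟩, a, b, ha, hb, hne⟩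
    have h1 := hA.2 y hy
    change Dop (0 : Matrix (Fin v) (Fin v) ℂ) (ex s A) univ y ∈ _ at h1
    have h4 : zz (0 : Matrix (Fin v) (Fin v) ℂ) y = 0 := by
      funext J
      rw [zz_apply, Matrix.zero_mulVec]
      rfl
    rwa [Dop_apply, h4, zero_add] at h1
  · obtain ⟨δ, hδ, a, b, ha, hb, hne⟩ := exists_der h
    have hz : V.z.map δ = 0 := by
      ext b b'
      exact hδ b b'
    refine ⟨T.x.map δ, ⟨⟨skew_der T δ, ?_⟩, ?_⟩, a, b, ha, hb, hne⟩
    · intro a b hab
      rw [Matrix.map_apply, hT.bx a b hab, map_zero]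
    · have h1 : ex s (T.x.map δ) = (ex s T.x).map δ := by
        unfold ex
        rw [fromBlocks_map]
        congr 1 <;> ext i j <;> simp
      rw [h1]
      exact der_stab hW δ hz

/-- **Separation of the variables for Hodge classes.** -/
theorem separate_all {V : HZ v} (hT : Full T c k) (h : ∀ i, NoQuot T c V.z i ∨ TransAt T c V.z i)
    (t : (Fin m → Fin s ⊕ Fin n) → Fin v → ℚ) (ht : IsHodgeZ T V t) :
    (∀ b, T.IsHodgeS fun J => t J b) ∧ ∀ J, t J ∈ V.Hdg := by
  refine separate hT ht fun i => ?_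
  rcases h i with h | h
  · let L : Submodule ℂ (Matrix (Fin n) (Fin n) ℂ × Matrix (Fin v) (Fin v) ℂ) :=
      { carrier := {p | (p.1ᵀ * mC T.Q + mC T.Q * p.1 = 0 ∧ BD c p.1) ∧
          ∀ b, act (emb s p.1) (sl t b) = fun J => ∑ b', p.2 b b' * sl t b' J}
        zero_mem' := by
          refine ⟨⟨by simp, fun a b _ => rfl⟩, fun b => ?_⟩
          change act (emb s (0 : Matrix (Fin n) (Fin n) ℂ)) (sl t b) =
            fun J => ∑ b', (0 : Matrix (Fin v) (Fin v) ℂ) b b' * sl t b' J
          rw [emb_zero, act_zero]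
          funext J
          simp
        add_mem' := by
          rintro ⟨A, B⟩ ⟨A', B'⟩ ⟨⟨a1, a2⟩, h⟩ ⟨⟨b1, b2⟩, h'⟩
          refine ⟨⟨?_, fun a b hab => ?_⟩, fun b => ?_⟩
          · change (A + A')ᵀ * mC T.Q + mC T.Q * (A + A') = 0
            change Aᵀ * mC T.Q + mC T.Q * A = 0 at a1
            change A'ᵀ * mC T.Q + mC T.Q * A' = 0 at b1
            rw [Matrix.transpose_add, Matrix.add_mul, Matrix.mul_add, add_add_add_comm, a1, b1,
              add_zero]
          · have e1 : A a b = 0 := a2 a b hab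
            have e2 : A' a b = 0 := b2 a b hab
            change A a b + A' a b = 0
            rw [e1, e2, add_zero]
          · change act (emb s (A + A')) (sl t b) = fun J => ∑ b', (B + B') b b' * sl t b' J
            have e1 : act (emb s A) (sl t b) = fun J => ∑ b', B b b' * sl t b' J := h b
            have e2 : act (emb s A') (sl t b) = fun J => ∑ b', B' b b' * sl t b' J := h' b
            rw [emb_add, act_add, e1, e2]
            funext J
            simp only [Pi.add_apply, Matrix.add_apply, add_mul, Finset.sum_add_distrib]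
        smul_mem' := by
          rintro w ⟨A, B⟩ ⟨⟨a1, a2⟩, h⟩
          refine ⟨⟨?_, fun a b hab => ?_⟩, fun b => ?_⟩
          · change (w • A)ᵀ * mC T.Q + mC T.Q * (w • A) = 0
            change Aᵀ * mC T.Q + mC T.Q * A = 0 at a1
            rw [Matrix.transpose_smul, Matrix.smul_mul, Matrix.mul_smul, ← smul_add, a1, smul_zero]
          · have e1 : A a b = 0 := a2 a b hab
            change w • A a b = 0
            rw [e1, smul_zero]
          · change act (emb s (w • A)) (sl t b) = fun J => ∑ b', (w • B) b b' * sl t b' J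
            have e1 : act (emb s A) (sl t b) = fun J => ∑ b', B b b' * sl t b' J := h b
            rw [emb_smul, act_smul, e1]
            funext J
            simp only [Pi.smul_apply, Matrix.smul_apply, smul_eq_mul, Finset.mul_sum, mul_assoc] }
    have hbr : ∀ p ∈ L, ∀ q ∈ L, (p.1 * q.1 - q.1 * p.1, p.2 * q.2 - q.2 * p.2) ∈ L := by
      rintro ⟨A, B⟩ ⟨⟨a1, a2⟩, h⟩ ⟨A', B'⟩ ⟨⟨b1, b2⟩, h'⟩
      refine ⟨⟨skew_br a1 b1, BD_br a2 b2⟩, fun b => ?_⟩
      change act (emb s (A * A' - A' * A)) (sl t b) =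
        fun J => ∑ b', (B * B' - B' * B) b b' * sl t b' J
      have e1 : ∀ b, act (emb s A) (sl t b) = fun J => ∑ b', B b b' * sl t b' J := h
      have e2 : ∀ b, act (emb s A') (sl t b) = fun J => ∑ b', B' b b' * sl t b' J := h'
      rw [emb_sub, emb_mul, emb_mul, W368.PG.act_lie, e1, e2, act_sum_right, act_sum_right]
      funext J
      simp only [e1, e2, Pi.sub_apply, Matrix.sub_apply, Matrix.mul_apply, sub_mul,
        Finset.sum_sub_distrib, Finset.mul_sum, Finset.sum_mul]
      congr 1
      · rw [Finset.sum_comm]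
        refine Finset.sum_congr rfl fun b' _ => Finset.sum_congr rfl fun b'' _ => ?_
        ring
      · rw [Finset.sum_comm]
        refine Finset.sum_congr rfl fun b' _ => Finset.sum_congr rfl fun b'' _ => ?_
        ring
    have hσ : ∀ σ : ℂ ≃+* ℂ, (T.x.map σ, V.z.map σ) ∈ L := by
      intro σ
      exact ⟨⟨skew_map T.skew σ, hT.bx.map (map_zero σ)⟩, fun b => hodge_map ht σ b⟩
    obtain ⟨A, hA, a, b, ha, hb, hne⟩ := exists_alone i h L (fun p hp => hp.1.2) hbr hσ
    refine ⟨A, ⟨hA.1, fun b => ?_⟩, a, b, ha, hb, hne⟩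
    have h1 : act (emb s A) (sl t b) =
      fun J => ∑ b', (0 : Matrix (Fin v) (Fin v) ℂ) b b' * sl t b' J := hA.2 b
    rw [h1]
    funext J
    simp
  · obtain ⟨δ, hδ, a, b, ha, hb, hne⟩ := exists_der h
    exact ⟨T.x.map δ, Nt_der ht hT.bx δ hδ, a, b, ha, hb, hne⟩

end

end Pool.Agent.U228.GP
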