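import Pool.Agent.U228.GP.Stab2
import Pool.Agent.U228.GP.Num

/-!
# Hodge structures which are unrelated to a Hodge structure of level two
-/

set_option autoImplicit false
set_option linter.unusedSectionVars false

open Finset Module Matrix

namespace Pool.Agent.U228.GP

open Pool.Agent.W544.PG Pool.Agent.TH164.HC Pool.Agent.TH164.GHC Pool.Agent.U228.KP

noncomputable section

/-- The rational Hodge structure `V`, with Hodge operator `z`, is unrelated to the summand `T_i` of `T`,
for one of the following reasons.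

* The Hodge Lie algebra of `V` has no quotient isomorphic to `so(T_i)` (`NoQuot`).
* `V` is of CM type: the conjugates of the Hodge operator of `V` commute.
* For some `l`, the component of type `(l, -l)` of the Hodge Lie algebra of `V` has smaller dimension
  than the one of `so(T_i)`.
* The Hodge operator of `V` is defined over a subfield `K` of `ℂ` over which some entry of the Hodge
  operator of `T_i` is transcendental (`TransAt`).

The first condition follows from the second and from the third. -/
def Unrelated {n r v : ℕ} (T : HS n) (c : Fin n → Fin r) (z : Matrix (Fin v) (Fin v) ℂ) (i : Fin r) :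
    Prop :=
  NoQuot T c z i ∨ (∀ σ τ : ℂ ≃+* ℂ, z.map σ * z.map τ = z.map τ * z.map σ) ∨
    (∃ l : ℤ, finrank ℂ (HLieType z l) < finrank ℂ (adj T.Q T.x c i l)) ∨ TransAt T c z i

variable {n r s v m : ℕ} {T : HS n} {c : Fin n → Fin r} {k : Fin r → ℕ}

theorem unrelated_imp (hT : Full T c k) {z : Matrix (Fin v) (Fin v) ℂ}
    (hz : ∀ x : Fin v → ℂ, x ∈ Submodule.span ℂ {y | ∃ μ : ℂ, z *ᵥ y = μ • y}) {i : Fin r}
    (h : Unrelated T c z i) : NoQuot T c z i ∨ TransAt T c z i := by
  rcases h with h | h | ⟨l, h⟩ | h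
  · exact Or.inl h
  · exact Or.inl (noQuot_cm hT h i)
  · exact Or.inl (noQuot_num hT hz i l h)
  · exact Or.inr h

theorem coh_diag (V : Coh v) (x : Fin v → ℂ) :
    x ∈ Submodule.span ℂ {y | ∃ μ : ℂ, V.z *ᵥ y = μ • y} := by
  refine Submodule.span_mono ?_ (V.decomp x)
  rintro y ⟨l, hl⟩
  refine ⟨(l : ℂ) / 2, ?_⟩
  have : V.z *ᵥ y = (1 / 2 : ℂ) • ((2 : ℂ) • (V.z *ᵥ y)) := by
    rw [smul_smul]; norm_num
  rw [this, hl, smul_smul]
  congr 1
  ring

theorem hz_diag (V : HZ v) (x : Fin v → ℂ) :
    x ∈ Submodule.span ℂ {y | ∃ μ : ℂ, V.z *ᵥ y = μ • y} := by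
  refine Submodule.span_mono ?_ (V.decomp x)
  rintro y ⟨l, hl⟩
  exact ⟨(l : ℂ), hl⟩

/-- Sub-Hodge structures. -/
theorem stable_unrelated {V : Coh v} (hT : Full T c k) (h : ∀ i, Unrelated T c V.z i) :
    Stable T c V :=
  stable_all hT fun i => unrelated_imp hT (coh_diag V) (h i)

/-- **Hodge classes on products of surfaces with unrelated categories.** -/
theorem hodge_unrelated {V : HZ v} (hT : Full T c k) (h : ∀ i, Unrelated T c V.z i)
    (d : Fin s → Fin r) (a : Fin m → Fin r) (t : (Fin m → Fin s ⊕ Fin n) → Fin v → ℚ)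
    (hta : ∀ J b, t J b ≠ 0 → ∀ j, Sum.elim d c (J j) = a j)
    (htr : ∀ J b, t J b ≠ 0 → ∀ i, (univ.filter fun j => ∃ e, J j = Sum.inr e ∧ c e = i).card <
      k i) :
    IsHodgeZ T V t ↔ t ∈ products (T.algP c d a) V.Hdg := by
  constructor
  · intro ht
    have hs := separate_all hT (fun i => unrelated_imp hT (hz_diag V) (h i)) t ht
    exact mem_products t (fun b => hcFull hT d a _ (hs.1 b) (fun J hJ => hta J b hJ)
      (fun J hJ => htr J b hJ)) hs.2
  · exact products_hodge hT.bx d a t

end

end Pool.Agent.U228.GP
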